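import Pool.Agent.H41.KS.Avg

/-! # All moments on the critical line of the zeta function of a system of generalised primes

A Beurling system which satisfies the Riemann hypothesis, and for which the asymptotic behaviour of all the moments of the
zeta function on the critical line is known: the shape is `a_k (log T)^(k^2)` as in the Keating-Snaith conjecture, but the
constant of random matrix theory is replaced by `e^(γ k^2)`. -/

set_option autoImplicit false

open MeasureTheory Filter Topology Set

namespace Pool.Agent.Results.MP_6a632e_nt.BeurlingMoments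

/-- A system of Beurling generalised primes `1 < p 0 < p 1 < ...` tending to infinity. -/
structure IsSystem (p : ℕ → ℝ) : Prop where
  one_lt : 1 < p 0
  strictMono : StrictMono p
  tendsto : Tendsto p atTop atTop

/-- The number of generalised primes `≤ x`. -/
noncomputable def primeCount (p : ℕ → ℝ) (x : ℝ) : ℕ := {n : ℕ | p n ≤ x}.ncard

/-- The number of generalised integers `≤ x`, that is of finite products `∏ p k ^ a k` (exponents `a k : ℕ`, only finitely many
different from `0`; different families of exponents are counted separately). -/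
noncomputable def integerCount (p : ℕ → ℝ) (x : ℝ) : ℕ :=
  {a : ℕ →₀ ℕ | (a.prod fun k e => p k ^ e) ≤ x}.ncard

/-- `Z` is the zeta function of the system in the quarter plane `re s > 1/3`, `im s > 0`: it is analytic and without zeros
there, and equal to the Euler product for `re s > 1`. -/
structure IsZeta (p : ℕ → ℝ) (Z : ℂ → ℂ) : Prop where
  analytic : DifferentiableOn ℂ Z {s | 1 / 3 < s.re ∧ 0 < s.im}
  ne_zero : ∀ s : ℂ, 1 / 3 < s.re → 0 < s.im → Z s ≠ 0
  euler : ∀ s : ℂ, 1 < s.re → 0 < s.im →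
    Tendsto (fun N : ℕ => ∏ n ∈ Finset.range N, (1 - (p n : ℂ) ^ (-s))⁻¹) atTop (𝓝 (Z s))

/-- The mean value of `|Z|^(2k)` on the critical line (from `1`, since `Z` may be singular at `1/2`). -/
noncomputable def moment (Z : ℂ → ℂ) (k : ℕ) (T : ℝ) : ℝ :=
  (1 / T) * ∫ t in (1 : ℝ)..T, ‖Z (1 / 2 + t * Complex.I)‖ ^ (2 * k)

/-- The partial products of the arithmetic factor `a_k` of the system. -/
noncomputable def arithmeticFactor (p : ℕ → ℝ) (k N : ℕ) : ℝ :=
  ∏ n ∈ Finset.range N, ((1 - 1 / p n) ^ (k ^ 2) * ∑' m : ℕ, ((m + k - 1).choose m : ℝ) ^ 2 / p n ^ m)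

/-- The factor `f_k` of random matrix theory. -/
noncomputable def matrixFactor (k : ℕ) : ℝ :=
  ∏ j ∈ Finset.range k, (j.factorial : ℝ) / ((j + k).factorial : ℝ)

lemma matrixFactor_bd (k : ℕ) : 0 < matrixFactor k ∧ matrixFactor k ≤ 1 := by
  constructor
  · exact Finset.prod_pos fun j _ => by positivity
  · refine Finset.prod_le_one (fun j _ => by positivity) fun j _ => ?_
    rw [div_le_one (by positivity)]
    exact_mod_cast Nat.factorial_le (by omega)

open Pool.Agent.H41.KS Pool.Agent.H41.BC in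
theorem result : ∃ (p : ℕ → ℝ) (Z : ℂ → ℂ) (c : ℝ), IsSystem p ∧ IsZeta p Z ∧ 0 < c ∧
    (∃ A : ℝ, ∀ x : ℝ, 3 ≤ x →
      |(primeCount p x : ℝ) - ∫ t in (2 : ℝ)..x, 1 / Real.log t| ≤ A * (1 + |Real.log (Real.log x)|)) ∧
    (∀ ε : ℝ, 0 < ε → ∃ A : ℝ, ∀ x : ℝ, 1 ≤ x → |(integerCount p x : ℝ) - c * x| ≤ A * x ^ (1 / 2 + ε)) ∧
    ∀ k : ℕ, 1 ≤ k → ∃ a : ℝ, 0 < a ∧ Tendsto (arithmeticFactor p k) atTop (𝓝 a) ∧
      Tendsto (fun T : ℝ => moment Z k T /
        (a * Real.exp (Real.eulerMascheroniConstant * k ^ 2) * (c * Real.log T) ^ (k ^ 2))) atTop (𝓝 1) ∧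
      ¬ Tendsto (fun T : ℝ => moment Z k T / (a * matrixFactor k * (c * Real.log T) ^ (k ^ 2))) atTop (𝓝 1) := by
  obtain ⟨α, H⟩ := exists_cl
  obtain ⟨κ, hκ⟩ := kap H
  obtain ⟨W, N, hW, ⟨c, hc, hq, hcount⟩, hN, hX⟩ := exists_sys H
  have hlt : ∀ n, W n < W (n + 1) := fun n => (hW n).2.trans_lt (hW (n + 1)).1
  have hW4 : ∀ n, 4 < W n := fun n => by linarith [(hW n).1, H.four_le n]
  have hWT : Tendsto W atTop atTop := tendsto_atTop_mono (fun n => (hW n).1.le) H.tendsto
  have hic : ∀ x : ℝ, integerCount (fun n => Real.exp (W n)) x = NN W x := by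
    intro x
    unfold integerCount NN
    congr 1
    ext a
    have : (a.prod fun k e => Real.exp (W k) ^ e) = Real.exp (lg W a) := by
      unfold lg
      rw [Finsupp.prod, Finsupp.sum, Real.exp_sum]
      exact Finset.prod_congr rfl fun k _ => (Real.exp_nat_mul _ _).symm
    simp only [Set.mem_ofPred_eq, this]
  refine ⟨fun n => Real.exp (W n), ff α W, c, ⟨Real.one_lt_exp_iff.2 (by linarith [hW4 0]),
    strictMono_nat_of_lt_succ fun n => Real.exp_lt_exp.2 (hlt n), Real.tendsto_exp_atTop.comp hWT⟩,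
    ⟨ff_diff H hW, fun s _ _ => Complex.exp_ne_zero _, fun s hs hs' => ?_⟩, hc, pi_law H hW, ?_, ?_⟩
  · refine (ff_euler H hW hs hs').congr fun M => Finset.prod_congr rfl fun n _ => ?_
    have h1 : ((Real.exp (W n) : ℝ) : ℂ) ≠ 0 := by exact_mod_cast (Real.exp_pos _).ne'
    rw [Complex.cpow_def_of_ne_zero h1, ← Complex.ofReal_log (Real.exp_pos _).le, Real.log_exp]
    congr 3
    ring
  · simp_rw [hic]
    exact hcount
  · intro k hk
    obtain ⟨K, rfl⟩ : ∃ K, k = K + 1 := ⟨k - 1, by omega⟩
    obtain ⟨a, ha, h1, h2⟩ := moments K H hκ hW hc hq hN (hX K)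
    have hph : ∀ n, ph K (W n) = ∑' m : ℕ, ((m + (K + 1) - 1).choose m : ℝ) ^ 2 / Real.exp (W n) ^ m := by
      intro n
      unfold ph
      refine tsum_congr fun m => ?_
      rw [max_eq_left (hW4 n).le, show m + (K + 1) - 1 = m + K by omega, Nat.choose_symm_add, Real.exp_neg,
        Real.exp_nat_mul]
      rfl
    have hcast : (((K + 1 : ℕ) : ℝ)) = (K : ℝ) + 1 := by push_cast; ring
    set p : ℕ := (K + 1) ^ 2 with hp
    set E : ℝ := Real.exp (Real.eulerMascheroniConstant * ((K : ℝ) + 1) ^ 2) with hE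
    have hE1 : 1 < E := by
      rw [hE, Real.one_lt_exp_iff]
      have := Real.one_half_lt_eulerMascheroniConstant
      positivity
    have hmain : Tendsto (fun T : ℝ => moment (ff α W) (K + 1) T / (a * E * (c * Real.log T) ^ p)) atTop (𝓝 1) := by
      have h3 := h2.div_const (a * (c ^ p * E))
      rw [div_self (by positivity)] at h3
      refine h3.congr fun T => ?_
      unfold moment
      rw [mul_pow]
      simp only [div_eq_mul_inv, mul_inv, one_mul]
      ring
    refine ⟨a, ha, ?_, ?_, ?_⟩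
    · refine h1.congr fun M => ?_
      unfold arithmeticFactor
      refine Finset.prod_congr rfl fun n _ => ?_
      rw [hph, Real.exp_neg, one_div]
    · rw [hcast]; exact hmain
    · intro h4
      obtain ⟨hm0, hm1⟩ := matrixFactor_bd (K + 1)
      have h5 : Tendsto (fun T : ℝ => moment (ff α W) (K + 1) T / (a * E * (c * Real.log T) ^ p)) atTop
          (𝓝 (1 * (matrixFactor (K + 1) / E))) := by
        refine (h4.mul_const (matrixFactor (K + 1) / E)).congr' ?_
        filter_upwards [eventually_gt_atTop 1] with T hT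
        have : 0 < Real.log T := Real.log_pos hT
        field_simp
      have h6 := tendsto_nhds_unique h5 hmain
      rw [one_mul, div_eq_one_iff_eq (by positivity)] at h6
      linarith

end Pool.Agent.Results.MP_6a632e_nt.BeurlingMoments
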