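import Pool.Agent.H27.SW.All

set_option autoImplicit false

/-!
# MP_6a632e_nt: the recipe with all its swap terms, for almost all shifts, in very short averages

The Keating-Snaith formula is the case of equal shifts of the recipe of Conrey, Farmer, Keating, Rubinstein and Snaith
for the shifted `2k`-th moments: the moment over `[T, T+H]` with the shifts `α_1, …, α_k`, `β_1, …, β_k` should be the
integral of the sum of the `(2k)! / (k!)²` terms in which `m` of the `α_j` are exchanged with `m` of the `β_j`,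
`0 ≤ m ≤ k` (it is the interaction of all these terms which gives the factor `f_k`). We prove this for every `k`,
unconditionally, for almost all vectors of shifts in `[0, U]^{2k}`, `T^(1/2+ε) ≤ U ≤ T H^(-ε)`, for all averages of
length `H ≥ (log T)^A`. For `H U < T` the swap terms are as large as the diagonal term.

Proof. In a window of length `U` the approximate functional equation has fixed smooth coefficients (`AFW`); the factor
`χ` is linearised in the variable of integration (`XL`), so that zeta minus the model `P_N + χ · conj P_N`, `P_N` the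
sum of the `n^(-s)`, `n ≤ N`, `N` a small power of `H`, is small as an operator from functions of `t ∈ [T, T+H]` to
functions of the shift (`OW`, large sieve in both variables); the factors are replaced one by one (`TE`); the product
of the models is expanded, all the unbalanced and off-diagonal terms oscillate (`EXM`), the balanced diagonal terms are
the terms of the recipe (`EXC`), with truncated Dirichlet series, which are then completed (`PRM`, from the starting
files).
-/

namespace Pool.Agent.Results.MP_6a632e_nt.RecipeWithSwapTerms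

open Complex MeasureTheory

noncomputable section

variable {k : ℕ}

/-- The divisor function `τ_l(n)`: the sum over `d_1 d_2 ⋯ d_k = n` of `∏ j, d_j ^ l_j`. -/
def tau (l : Fin k → ℂ) (n : ℕ) : ℂ :=
  ∑ d ∈ Nat.finMulAntidiag k n, ∏ j, (d j : ℂ) ^ (l j)

/-- The Euler factor of `F(a, b)` at the prime `p`. -/
def localFactor (a b : Fin k → ℝ) (p : ℕ) : ℂ :=
  (∏ j, ∏ l, (1 - (p : ℂ) ^ (-(1 + I * a j - I * b l)))) *
    ∑' m : ℕ, tau (fun j => I * b j) (p ^ m) * tau (fun j => -(I * a j)) (p ^ m) *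
      (p : ℂ) ^ (-(m : ℂ))

/-- The arithmetic factor `F(a, b)`, an Euler product. -/
def arithF (a b : Fin k → ℝ) : ℂ := ∏' p : Nat.Primes, localFactor a b p

/-- The diagonal term `F(a, b) ∏ ζ(1 + i a_j - i b_l)`. -/
def diag (a b : Fin k → ℝ) : ℂ :=
  arithF a b * ∏ j, ∏ l, riemannZeta (1 + I * a j - I * b l)

/-- The factor `χ` of the functional equation `ζ(s) = χ(s) ζ(1 - s)`. -/
def chi (s : ℂ) : ℂ := (Real.pi : ℂ) ^ (s - 1 / 2) * Gamma ((1 - s) / 2) / Gamma (s / 2)

/-- `Z_γ(t) = ∏ ζ(1/2 + i(t + α_j)) ζ(1/2 - i(t + β_j))`, where `γ = (α, β)` is indexed by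
`Fin k ⊕ Fin k`. -/
def Z (γ : Fin k ⊕ Fin k → ℝ) (t : ℝ) : ℂ :=
  ∏ j : Fin k, riemannZeta (1 / 2 + I * (t + γ (Sum.inl j))) *
    riemannZeta (1 / 2 - I * (t + γ (Sum.inr j)))

/-- The product of the factors `χ` for the swapped shifts. -/
def G (γ : Fin k ⊕ Fin k → ℝ) (t : ℝ) (π : Equiv.Perm (Fin k ⊕ Fin k)) : ℂ :=
  (∏ j : Fin k, if (π (Sum.inl j)).isRight then chi (1 / 2 - I * t - I * γ (π (Sum.inl j))) else 1) *
  ∏ j : Fin k, if (π (Sum.inr j)).isLeft then chi (1 / 2 + I * t + I * γ (π (Sum.inr j))) else 1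

/-- The recipe `Q_γ(t)`, the sum of all the `(2k)! / (k!) ^ 2` swap terms: the summand depends only
on the class of `π` in `S_{2k} / (S_k × S_k)`, so the sum over the classes is the sum over all `π`,
divided by `(k!) ^ 2`. -/
def Q (γ : Fin k ⊕ Fin k → ℝ) (t : ℝ) : ℂ :=
  ((Nat.factorial k : ℂ) ^ 2)⁻¹ * ∑ π : Equiv.Perm (Fin k ⊕ Fin k),
    G γ t π * diag (fun j => γ (π (Sum.inl j))) (fun j => γ (π (Sum.inr j)))

section aux

open Pool.Agent.TH612.CF Pool.Agent.W182.KO

lemma diag_eq (a b : Fin k → ℝ) :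
    diag a b = zab (fun j => (a j : ℂ)) (fun j => (b j : ℂ)) := by
  unfold diag zab arithF FH
  congr 1
  · refine tprod_congr fun p => ?_
    unfold localFactor lh lt
    congr 1
    refine tsum_congr fun m => ?_
    rw [Complex.cpow_neg, Complex.cpow_natCast]
    rfl

lemma Q_eq (γ : Fin k ⊕ Fin k → ℝ) (t : ℝ) :
    Q γ t = ((Nat.factorial k : ℂ) ^ 2)⁻¹ * Qs t (fun i => (γ i : ℂ)) := by
  unfold Q Qs Rt
  congr 1
  refine Finset.sum_congr rfl fun π _ => ?_
  rw [diag_eq]
  rfl

lemma int_eq (T H : ℝ) (γ : Fin k ⊕ Fin k → ℝ) :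
    ∫ t in T..(T + H), (Z γ t - Q γ t) = Pool.Agent.H27.SW.DT T H γ := by
  unfold Pool.Agent.H27.SW.DT
  refine intervalIntegral.integral_congr fun t _ => ?_
  simp only [Q_eq]
  rfl

end aux

/-- **The recipe with all its swap terms, for almost all shifts, in very short averages.** For all `k ≥ 1` and `ε > 0`
there are `c > 0`, `B` and `T₀` such that for all `T ≥ T₀`, `1 ≤ H ≤ T` and `T^(1/2+ε) ≤ U ≤ T H^(-ε)` the integral over
`[T, T+H]` of the difference between the shifted `2k`-th moment and the recipe is at most `H · H^(-c) (log T)^B`,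
except for a set of `γ ∈ [0, U]^{2k}` of measure at most `U^{2k} · H^(-c) (log T)^B`. -/
theorem result (k : ℕ) (hk : 1 ≤ k) (ε : ℝ) (hε : 0 < ε) :
    ∃ c : ℝ, 0 < c ∧ ∃ (B : ℕ) (T₀ : ℝ), ∀ T : ℝ, T₀ ≤ T → ∀ U H : ℝ, 1 ≤ H → H ≤ T →
      T ^ (1 / 2 + ε) ≤ U → U * H ^ ε ≤ T →
      volume {γ : Fin k ⊕ Fin k → ℝ | (∀ i, 0 ≤ γ i ∧ γ i ≤ U) ∧
          H * (H ^ (-c) * Real.log T ^ B) < ‖∫ t in T..(T + H), (Z γ t - Q γ t)‖} ≤
        ENNReal.ofReal (U ^ (2 * k) * (H ^ (-c) * Real.log T ^ B)) := by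
  set δ : ℝ := min ε (1 / 4) with hδ
  have hδ0 : 0 < δ := lt_min hε (by norm_num)
  obtain ⟨c, T₀, B, hc, h⟩ := Pool.Agent.H27.SW.t_FIN k δ hk hδ0 (min_le_right _ _)
  refine ⟨c, hc, B, max T₀ 1, fun T hT U H hH hHT hTU hUH => ?_⟩
  have hT1 : 1 ≤ T := (le_max_right _ _).trans hT
  have hU0 : 0 ≤ U := (by positivity : (0:ℝ) ≤ T ^ (1 / 2 + ε)).trans hTU
  have hδε : δ ≤ ε := min_le_left _ _
  have h1 := h T H U ((le_max_left _ _).trans hT) hH hHT
    ((Real.rpow_le_rpow_of_exponent_le hT1 (by linarith)).trans hTU)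
    ((mul_le_mul_of_nonneg_left (Real.rpow_le_rpow_of_exponent_le hH hδε) hU0).trans hUH)
  rw [Pool.Agent.TH612.GS.vol_cube (T := U) (fun γ hγ => hγ.1)]
  refine (measure_mono fun γ hγ => ?_).trans h1
  have h2 := hγ.2
  rw [int_eq] at h2
  exact h2

end

end Pool.Agent.Results.MP_6a632e_nt.RecipeWithSwapTerms
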